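import Pool.Agent.ATW.Stmts

/-!
# Squad ATW, row PYP: automorphisms of odd order of an abelian `2`-group with two generators
-/

noncomputable section

namespace Pool.Agent.PP.TW.H53P

open Pool.Agent.PP.TW Pool.Agent.PP

variable {V : Type} [CommGroup V]

/-- the squares -/
def Sq (V : Type) [CommGroup V] : Subgroup V := (powMonoidHom 2 : V →* V).range

theorem mem_sq {v : V} : v ∈ Sq V ↔ ∃ w : V, w ^ 2 = v := by
  unfold Sq
  exact MonoidHom.mem_range

theorem map_sq (s : V ≃* V) : (Sq V).map (s : V →* V) = Sq V := by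
  ext v
  rw [Subgroup.mem_map]
  constructor
  · rintro ⟨u, hu, rfl⟩
    obtain ⟨w, rfl⟩ := mem_sq.1 hu
    exact mem_sq.2 ⟨s w, by simp⟩
  · intro hv
    obtain ⟨w, rfl⟩ := mem_sq.1 hv
    exact ⟨(s.symm w) ^ 2, mem_sq.2 ⟨_, rfl⟩, by simp⟩

/-- the action on the cosets of the squares -/
def act (E : Subgroup (MulAut V)) : E →* Equiv.Perm (V ⧸ Sq V) where
  toFun s := (QuotientGroup.congr (Sq V) (Sq V) (s : MulAut V) (map_sq _)).toEquiv
  map_one' := by
    ext q
    induction q using QuotientGroup.induction_on with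
    | H v => rfl
  map_mul' s t := by
    ext q
    induction q using QuotientGroup.induction_on with
    | H v => rfl

theorem act_mk (E : Subgroup (MulAut V)) (s : E) (v : V) :
    act E s (v : V ⧸ Sq V) = (((s : MulAut V) v : V) : V ⧸ Sq V) := rfl

theorem card_quot [Finite V] {x y : V} (hxy : (⊤ : Subgroup V) = Subgroup.closure {x, y}) :
    Nat.card (V ⧸ Sq V) ≤ 4 := by
  have hsq : ∀ (v : V) (i : ℤ), ((v ^ i : V) : V ⧸ Sq V) =
      ((v ^ ((i % 2).toNat) : V) : V ⧸ Sq V) := by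
    intro v i
    rw [QuotientGroup.eq]
    refine mem_sq.2 ⟨v ^ (-(i / 2)), ?_⟩
    have h1 : ((i % 2).toNat : ℤ) = i % 2 := Int.toNat_of_nonneg (Int.emod_nonneg _ (by norm_num))
    rw [← zpow_natCast v, h1, ← zpow_neg, ← zpow_add, ← zpow_natCast, ← zpow_mul]
    congr 1
    push_cast
    omega
  have hlt : ∀ i : ℤ, (i % 2).toNat < 2 := fun i => by omega
  let f : Fin 2 × Fin 2 → V ⧸ Sq V := fun t => ((x ^ (t.1 : ℕ) * y ^ (t.2 : ℕ) : V) : V ⧸ Sq V)
  have hf : Function.Surjective f := by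
    intro q
    induction q using QuotientGroup.induction_on with
    | H v =>
      have hv : v ∈ Subgroup.closure {x, y} := by rw [← hxy]; exact Subgroup.mem_top _
      obtain ⟨i, j, hij⟩ := Subgroup.mem_closure_pair.1 hv
      refine ⟨(⟨(i % 2).toNat, hlt i⟩, ⟨(j % 2).toNat, hlt j⟩), ?_⟩
      show ((x ^ (i % 2).toNat * y ^ (j % 2).toNat : V) : V ⧸ Sq V) = (v : V ⧸ Sq V)
      rw [← hij, QuotientGroup.mk_mul, QuotientGroup.mk_mul, ← hsq x i, ← hsq y j]
  have h1 := Nat.card_le_card_of_surjective f hf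
  rwa [Nat.card_prod, Nat.card_fin] at h1

theorem act_inj [Finite V] (hC : T8.CprStmt) {a : ℕ} (hexp : Monoid.exponent V = 2 ^ a)
    (E : Subgroup (MulAut V)) (hE : ¬ 2 ∣ Nat.card E) : Function.Injective (act E) := by
  rw [← MonoidHom.ker_eq_bot_iff]
  have hprime : Fact (Nat.Prime 2) := ⟨Nat.prime_two⟩
  have hS : (act E).ker.map E.subtype = ⊥ := by
    refine (hC 2 V a hexp ((act E).ker.map E.subtype) ?_).2 ?_
    · intro h
      apply hE
      refine h.trans ((Subgroup.card_dvd_of_le (K := E) ?_))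
      intro s hs
      obtain ⟨t, _, rfl⟩ := Subgroup.mem_map.1 hs
      exact t.2
    · intro s hs v
      obtain ⟨t, ht, rfl⟩ := Subgroup.mem_map.1 hs
      have h1 : act E t (v : V ⧸ Sq V) = (v : V ⧸ Sq V) := by
        rw [MonoidHom.mem_ker.1 ht]
        rfl
      rw [act_mk] at h1
      obtain ⟨w, hw⟩ := mem_sq.1 (QuotientGroup.eq.1 h1.symm)
      exact ⟨w, by
        show (t : MulAut V) v = v * w ^ 2
        rw [hw, mul_inv_cancel_left]⟩
  exact (Subgroup.map_eq_bot_iff_of_injective _ E.subtype_injective).1 hS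

/-- the fixed points modulo squares are trivial -/
theorem fixed_coset [Finite V] {x y : V} (hxy : (⊤ : Subgroup V) = Subgroup.closure {x, y})
    (hC : T8.CprStmt) {a : ℕ} (hexp : Monoid.exponent V = 2 ^ a)
    (E : Subgroup (MulAut V)) (hE : ¬ 2 ∣ Nat.card E) (hE3 : Nat.card E = 3) (s : E)
    (hs : s ≠ 1) (c : V) (hc : (s : MulAut V) c = c) : c ∈ Sq V := by
  classical
  have hfin : Finite (V ⧸ Sq V) := Quotient.finite _
  let _ : Fintype (V ⧸ Sq V) := Fintype.ofFinite _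
  have hprime : Fact (Nat.Prime 3) := ⟨Nat.prime_three⟩
  set σ : Equiv.Perm (V ⧸ Sq V) := act E s with hσ
  have hσ1 : σ ≠ 1 := by
    intro h
    apply hs
    apply act_inj hC hexp E hE
    rw [map_one]
    exact h
  have hσ3 : σ ^ 3 = 1 := by
    rw [hσ, ← map_pow, ← hE3, pow_card_eq_one', map_one]
  let g : Function.End (V ⧸ Sq V) := fun q => σ q
  have hσf : g ^ 3 ^ 1 = 1 := by
    rw [pow_one, pow_succ, pow_two]
    funext q
    have h := congrArg (fun τ : Equiv.Perm (V ⧸ Sq V) => τ q) hσ3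
    rw [pow_succ, pow_two] at h
    exact h
  have hmod := Equiv.Perm.card_fixedPoints_modEq hσf
  rw [← Nat.card_eq_fintype_card, ← Nat.card_eq_fintype_card] at hmod
  have h4 := card_quot hxy
  set F := Function.fixedPoints g with hF
  have h1F : (1 : V ⧸ Sq V) ∈ F := by
    show σ 1 = 1
    have := act_mk E s 1
    rw [map_one] at this
    exact this
  have hcF : (c : V ⧸ Sq V) ∈ F := by
    show σ (c : V ⧸ Sq V) = (c : V ⧸ Sq V)
    rw [hσ, act_mk, hc]
  have hlt : Fintype.card F < Fintype.card (V ⧸ Sq V) := by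
    obtain ⟨q, hq⟩ : ∃ q, σ q ≠ q := by
      by_contra hcon
      push Not at hcon
      exact hσ1 (Equiv.ext hcon)
    exact Fintype.card_subtype_lt (p := fun q => q ∈ F) (x := q) hq
  rw [← Nat.card_eq_fintype_card, ← Nat.card_eq_fintype_card] at hlt
  have hle : Fintype.card F ≤ 1 := by
    have h0 : 0 < Fintype.card F := Fintype.card_pos_iff.2 ⟨⟨1, h1F⟩⟩
    rw [← Nat.card_eq_fintype_card] at h0 ⊢
    unfold Nat.ModEq at hmod
    omega
  have h5 := Fintype.card_le_one_iff.1 hle ⟨c, hcF⟩ ⟨1, h1F⟩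
  have h6 : (c : V ⧸ Sq V) = 1 := congrArg Subtype.val h5
  exact (QuotientGroup.eq_one_iff c).1 h6

/-- freeness -/
theorem free_ [Finite V] {x y : V} (hxy : (⊤ : Subgroup V) = Subgroup.closure {x, y})
    (hC : T8.CprStmt) {a : ℕ} (hexp : Monoid.exponent V = 2 ^ a)
    (E : Subgroup (MulAut V)) (hE : ¬ 2 ∣ Nat.card E) (hE3 : Nat.card E = 3) (s : E)
    (hs : s ≠ 1) (c : V) (hc : (s : MulAut V) c = c) : c = 1 := by
  have hs3 : ∀ v : V, (s : MulAut V) ((s : MulAut V) ((s : MulAut V) v)) = v := by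
    intro v
    have h1 : s ^ 3 = 1 := by rw [← hE3, pow_card_eq_one']
    have h2 : ((s : MulAut V)) ^ 3 = 1 := by
      rw [← Subgroup.coe_pow, h1, Subgroup.coe_one]
    have h3 := congrArg (fun τ : MulAut V => τ v) h2
    rw [pow_succ, pow_two] at h3
    exact h3
  have hstep : ∀ c : V, (s : MulAut V) c = c → ∃ c' : V, (s : MulAut V) c' = c' ∧ c = c' ^ 2 := by
    intro c hc
    obtain ⟨w, hw⟩ := mem_sq.1 (fixed_coset hxy hC hexp E hE hE3 s hs c hc)
    have hN : (s : MulAut V) (w * (s : MulAut V) w * (s : MulAut V) ((s : MulAut V) w)) =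
        w * (s : MulAut V) w * (s : MulAut V) ((s : MulAut V) w) := by
      rw [map_mul, map_mul, hs3 w]
      rw [mul_comm _ w, mul_assoc, ← mul_assoc]
      
    have hN2 : (w * (s : MulAut V) w * (s : MulAut V) ((s : MulAut V) w)) ^ 2 = c ^ 3 := by
      rw [mul_pow, mul_pow, ← map_pow, ← map_pow, ← map_pow, hw, hc, hc]
      rw [pow_succ, pow_two]
    refine ⟨w * (s : MulAut V) w * (s : MulAut V) ((s : MulAut V) w) * c⁻¹, ?_, ?_⟩
    · rw [map_mul, hN, map_inv, hc]
    · rw [mul_pow, hN2, inv_pow, pow_succ c 2]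
      rw [mul_comm (c ^ 2) c, mul_assoc, mul_inv_cancel, mul_one]
  have hiter : ∀ n : ℕ, ∀ c : V, (s : MulAut V) c = c →
      ∃ c' : V, (s : MulAut V) c' = c' ∧ c = c' ^ 2 ^ n := by
    intro n
    induction n with
    | zero => intro c hc; exact ⟨c, hc, by simp⟩
    | succ n ih =>
      intro c hc
      obtain ⟨c₁, h1, h2⟩ := ih c hc
      obtain ⟨c₂, h3, h4⟩ := hstep c₁ h1
      exact ⟨c₂, h3, by rw [h2, h4, ← pow_mul, ← pow_succ']⟩
  obtain ⟨c', _, h⟩ := hiter a c hc
  rw [h, ← hexp, Monoid.pow_exponent_eq_one]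

/-- ROW PYP -/
theorem pyp_ : T8.CprStmt → PypStmt := by
  intro hC V _ _ a ha hexp ⟨x, y, hxy⟩ E hE
  have hdvd : Nat.card E ∣ 24 := by
    have h1 := Subgroup.card_dvd_of_injective (act E) (act_inj hC hexp E hE)
    rw [Nat.card_perm] at h1
    have h2 := Nat.factorial_dvd_factorial (card_quot hxy)
    exact h1.trans h2
  have h13 : Nat.card E = 1 ∨ Nat.card E = 3 := by
    have h1 : Nat.card E ∈ Nat.divisors 24 := Nat.mem_divisors.2 ⟨hdvd, by norm_num⟩
    have h2 : Nat.divisors 24 = {1, 2, 3, 4, 6, 8, 12, 24} := by decide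
    rw [h2] at h1
    simp only [Finset.mem_insert, Finset.mem_singleton] at h1
    omega
  rcases h13 with h1 | h3
  · exact Or.inl (Subgroup.eq_bot_of_card_eq E h1)
  right
  have hfree : ∀ s ∈ E, ∀ v : V, s v = v → v = 1 ∨ s = 1 := by
    intro s hs v hv
    by_cases h : (⟨s, hs⟩ : E) = 1
    · exact Or.inr (congrArg Subtype.val h)
    · exact Or.inl (free_ hxy hC hexp E hE h3 ⟨s, hs⟩ h v hv)
  refine ⟨h3, hfree, ?_⟩
  obtain ⟨u, hu⟩ := Monoid.exists_orderOf_eq_exponent (G := V) Monoid.ExponentExists.of_finite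
  rw [hexp] at hu
  obtain ⟨s, hs⟩ : ∃ s : E, s ≠ 1 := by
    by_contra hcon
    push Not at hcon
    have : Subsingleton E := ⟨fun a b => by rw [hcon a, hcon b]⟩
    rw [Nat.card_of_subsingleton (1 : E)] at h3
    omega
  obtain ⟨b, rfl⟩ : ∃ b, a = b + 2 := ⟨a - 2, by omega⟩
  set z : V := u ^ 2 ^ (b + 1) with hz
  have hz2 : z ^ 2 = 1 := by
    rw [hz, ← pow_mul, ← pow_succ, show b + 1 + 1 = b + 2 by ring, ← hu, pow_orderOf_eq_one]
  have hz1 : z ≠ 1 := by
    intro h
    have h1 := orderOf_dvd_of_pow_eq_one h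
    rw [hu, Nat.pow_dvd_pow_iff_le_right (by norm_num)] at h1
    omega
  refine ⟨u, (s : MulAut V) z, ((s : MulAut V) u) ^ 2 ^ b, hu, ?_, ?_, ?_⟩
  · rw [hz, map_pow, ← pow_mul, ← pow_succ]
  · rw [← map_pow, hz2, map_one]
  · intro k hk
    have h1 : u ^ (k * 2) = 1 := by
      rw [pow_mul, hk, ← map_pow, hz2, map_one]
    have h2 := orderOf_dvd_of_pow_eq_one h1
    rw [hu, pow_succ 2 (b + 1)] at h2
    obtain ⟨i, hi⟩ := Nat.dvd_of_mul_dvd_mul_right (by norm_num) h2
    have h3' : u ^ k = z ^ i := by rw [hi, pow_mul, hz]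
    rw [h3'] at hk
    rcases Nat.even_or_odd' i with ⟨j, hj | hj⟩
    · rw [hj, pow_mul, hz2, one_pow] at hk
      have : z = 1 := by
        have h5 := (map_eq_one_iff (s : MulAut V) (s : MulAut V).injective).1 hk.symm
        exact h5
      exact hz1 this
    · rw [hj, pow_succ, pow_mul, hz2, one_pow, one_mul] at hk
      rcases hfree s s.2 z hk.symm with h5 | h5
      · exact hz1 h5
      · exact hs (Subtype.ext h5)

end Pool.Agent.PP.TW.H53P
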