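import Pool.Agent.ATW.Stmts

/-!
# Squad ATW, row ZI2: elements of the ring of the `2 ^ a`-th roots of unity fixed by `ζ ↦ ζ ^ 3`
-/

open scoped BigOperators

noncomputable section

namespace Pool.Agent.PP.TW.H53

open Pool.Agent.PP.TW

/-- the sum -/
def Xs (n : ℕ) (m : ℕ → ℤ) (ζ : ℂ) (j : ℕ) : ℂ := ∑ i ∈ Finset.range n, (m i : ℂ) * ζ ^ (i * j)

theorem sum_two_mul (n : ℕ) (f : ℕ → ℂ) : ∑ i ∈ Finset.range (2 * n), f i =
    ∑ i ∈ Finset.range n, f (2 * i) + ∑ i ∈ Finset.range n, f (2 * i + 1) := by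
  induction n with
  | zero => simp
  | succ n ih =>
    rw [show 2 * (n + 1) = 2 * n + 1 + 1 by ring, Finset.sum_range_succ, Finset.sum_range_succ, ih,
      Finset.sum_range_succ, Finset.sum_range_succ]
    ring

theorem prim_half {a : ℕ} {ζ : ℂ} (h : IsPrimitiveRoot ζ (2 ^ (a + 1))) : ζ ^ (2 ^ a) = -1 := by
  have h1 : (ζ ^ (2 ^ a)) ^ 2 = 1 := by
    rw [← pow_mul, ← pow_succ]
    exact h.pow_eq_one
  rcases sq_eq_one_iff.1 h1 with h2 | h2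
  · exact absurd h2 (h.pow_ne_one_of_pos_of_lt (by positivity)
      (Nat.pow_lt_pow_right (by norm_num) (by omega)))
  · exact h2

theorem xs_congr (n : ℕ) (m : ℕ → ℤ) (ζ : ℂ) (N : ℕ) (hN : ζ ^ N = 1) {j j' : ℕ}
    (h : j ≡ j' [MOD N]) : Xs n m ζ j = Xs n m ζ j' := by
  unfold Xs
  refine Finset.sum_congr rfl fun i _ => ?_
  rw [pow_eq_pow_of_modEq (Nat.ModEq.mul_left i h) hN]

theorem xs_red {a : ℕ} {ζ : ℂ} (h : IsPrimitiveRoot ζ (2 ^ (a + 1))) (m : ℕ → ℤ) (j : ℕ)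
    (hx : Xs (2 ^ (a + 1)) m ζ (j + 2 ^ a) = Xs (2 ^ (a + 1)) m ζ j) :
    Xs (2 ^ (a + 1)) m ζ j = Xs (2 ^ a) (fun i => m (2 * i)) (ζ ^ 2) j := by
  have h1 := prim_half h
  have h2 : 2 ^ (a + 1) = 2 * 2 ^ a := by rw [pow_succ, mul_comm]
  have e : ∀ j, Xs (2 ^ (a + 1)) m ζ j = ∑ i ∈ Finset.range (2 ^ a),
      (m (2 * i) : ℂ) * ζ ^ (2 * i * j) +
      ∑ i ∈ Finset.range (2 ^ a), (m (2 * i + 1) : ℂ) * ζ ^ ((2 * i + 1) * j) := by
    intro j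
    unfold Xs
    rw [h2, sum_two_mul]
  have e' : Xs (2 ^ (a + 1)) m ζ (j + 2 ^ a) = ∑ i ∈ Finset.range (2 ^ a),
      (m (2 * i) : ℂ) * ζ ^ (2 * i * j) -
      ∑ i ∈ Finset.range (2 ^ a), (m (2 * i + 1) : ℂ) * ζ ^ ((2 * i + 1) * j) := by
    rw [e, sub_eq_add_neg, ← Finset.sum_neg_distrib]
    refine congrArg₂ (· + ·) (Finset.sum_congr rfl fun i _ => ?_)
      (Finset.sum_congr rfl fun i _ => ?_)
    · rw [show 2 * i * (j + 2 ^ a) = 2 * i * j + 2 ^ a * (2 * i) by ring, pow_add, pow_mul ζ (2 ^ a),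
        h1, pow_mul (-1 : ℂ) 2 i]
      norm_num
    · rw [show (2 * i + 1) * (j + 2 ^ a) = (2 * i + 1) * j + 2 ^ a * (2 * i + 1) by ring, pow_add,
        pow_mul ζ (2 ^ a), h1, pow_succ (-1 : ℂ), pow_mul (-1 : ℂ) 2 i]
      norm_num
  have h3 : ∑ i ∈ Finset.range (2 ^ a), (m (2 * i + 1) : ℂ) * ζ ^ ((2 * i + 1) * j) = 0 := by
    rw [e', e j] at hx
    linear_combination (-1 / 2 : ℂ) * hx
  rw [e j, h3, add_zero]
  unfold Xs
  refine Finset.sum_congr rfl fun i _ => ?_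
  rw [← pow_mul]
  congr 2
  ring

theorem xs_pow {n : ℕ} {m : ℕ → ℤ} {ζ : ℂ} (h : ∀ j : ℕ, ¬ 2 ∣ j → Xs n m ζ (3 * j) = Xs n m ζ j)
    (k : ℕ) : ∀ j : ℕ, ¬ 2 ∣ j → Xs n m ζ (3 ^ k * j) = Xs n m ζ j := by
  induction k with
  | zero => intro j _; simp
  | succ k ih =>
    intro j hj
    rw [pow_succ, mul_assoc, ih (3 * j) (by omega), h j hj]

theorem r2_sq : r2 ^ 2 = -2 := by
  unfold r2
  rw [mul_pow, Complex.I_sq, ← Complex.ofReal_pow, Real.sq_sqrt (by norm_num)]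
  push_cast
  ring

theorem xs_eight (m : ℕ → ℤ) (ζ : ℂ) (j : ℕ) (h : (ζ ^ j) ^ 4 = -1) : Xs 8 m ζ j =
    ((m 0 - m 4 : ℤ) : ℂ) + ((m 1 - m 5 : ℤ) : ℂ) * ζ ^ j + ((m 2 - m 6 : ℤ) : ℂ) * (ζ ^ j) ^ 2 +
      ((m 3 - m 7 : ℤ) : ℂ) * (ζ ^ j) ^ 3 := by
  unfold Xs
  simp only [Finset.sum_range_succ, Finset.sum_range_zero, pow_mul' ζ]
  push_cast
  linear_combination ((m 4 : ℂ) + m 5 * ζ ^ j + m 6 * (ζ ^ j) ^ 2 + m 7 * (ζ ^ j) ^ 3) * h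

/-- the case of the eighth roots of unity -/
theorem base3 (ζ : ℂ) (hζ : ζ ^ 4 = -1) (m : ℕ → ℤ) (h : Xs 8 m ζ 3 = Xs 8 m ζ 1) :
    ∃ p q : ℤ, ∀ j : ℕ, ¬ 2 ∣ j → Xs 8 m ζ j = p + sg8 j * q * r2 := by
  have h8 : ζ ^ 8 = 1 := by
    rw [show (8 : ℕ) = 4 * 2 by norm_num, pow_mul, hζ]
    norm_num
  have hodd : ∀ j : ℕ, ¬ 2 ∣ j → (ζ ^ j) ^ 4 = -1 := by
    intro j hj
    rw [← pow_mul, mul_comm, pow_mul, hζ]
    exact Odd.neg_one_pow (Nat.odd_iff.2 (by omega))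
  rw [xs_eight m ζ 3 (hodd 3 (by norm_num)), xs_eight m ζ 1 (hodd 1 (by norm_num))] at h
  set A : ℤ := m 1 - m 5 with hA
  set B : ℤ := m 2 - m 6 with hB
  set C : ℤ := m 3 - m 7 with hC
  have h6 : ζ ^ 6 = - ζ ^ 2 := by linear_combination ζ ^ 2 * hζ
  have h9 : ζ ^ 9 = ζ := by linear_combination ζ * h8
  have e1 : ((A - C : ℤ) : ℂ) * (ζ - ζ ^ 3) = -2 * B * ζ ^ 2 := by
    push_cast
    rw [← pow_mul, ← pow_mul, pow_one] at h
    norm_num at h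
    rw [h6, h9] at h
    linear_combination -h
  have e2 : ((A - C : ℤ) : ℂ) ^ 2 * 2 = - (4 * (B : ℂ) ^ 2) := by
    have e3 : (ζ - ζ ^ 3) ^ 2 = 2 := by linear_combination (ζ ^ 2 - 2) * hζ
    have e4 : (ζ ^ 2) ^ 2 = -1 := by linear_combination hζ
    calc ((A - C : ℤ) : ℂ) ^ 2 * 2 = (((A - C : ℤ) : ℂ) * (ζ - ζ ^ 3)) ^ 2 := by
          rw [mul_pow, e3]
      _ = - (4 * (B : ℂ) ^ 2) := by
          rw [e1, mul_pow, e4]
          ring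
  have e5 : (A - C) ^ 2 * 2 = - (4 * B ^ 2) := by exact_mod_cast e2
  have hAC : A = C := by nlinarith [sq_nonneg (A - C), sq_nonneg B]
  have hB0 : B = 0 := by
    rw [hAC] at e5
    nlinarith [sq_nonneg B]
  have hτ : (ζ + ζ ^ 3) ^ 2 = r2 ^ 2 := by
    rw [r2_sq]
    linear_combination (ζ ^ 2 + 2) * hζ
  have key : ∀ j : ℕ, ¬ 2 ∣ j → Xs 8 m ζ j = ((m 0 - m 4 : ℤ) : ℂ) + A * (sg8 j * (ζ + ζ ^ 3)) := by
    intro j hj
    rw [xs_eight m ζ j (hodd j hj), ← hA, ← hB, ← hC, ← hAC, hB0]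
    have hj8 : ζ ^ j = ζ ^ (j % 8) := pow_eq_pow_mod j h8
    have hcase : j % 8 = 1 ∨ j % 8 = 3 ∨ j % 8 = 5 ∨ j % 8 = 7 := by omega
    rw [hj8]
    rcases hcase with hc | hc | hc | hc
    · rw [hc, show sg8 j = 1 from by simp [sg8, hc]]
      push_cast
      ring
    · rw [hc, show sg8 j = 1 from by simp [sg8, hc]]
      push_cast
      linear_combination (A : ℂ) * h9
    · rw [hc, show sg8 j = -1 from by simp [sg8, hc]]
      push_cast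
      linear_combination (A : ℂ) * (ζ * hζ + ζ ^ 7 * h8 + ζ ^ 3 * hζ)
    · rw [hc, show sg8 j = -1 from by simp [sg8, hc]]
      push_cast
      linear_combination (A : ℂ) * (ζ ^ 3 * hζ + ζ ^ 13 * h8 + ζ ^ 5 * h8 + ζ * hζ)
  rcases sq_eq_sq_iff_eq_or_eq_neg.1 hτ with ht | ht
  · refine ⟨m 0 - m 4, A, fun j hj => ?_⟩
    rw [key j hj, ht]
    ring
  · refine ⟨m 0 - m 4, -A, fun j hj => ?_⟩
    rw [key j hj, ht]
    push_cast
    ring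

theorem xs_main (hP : P3mStmt) (n : ℕ) : ∀ ζ : ℂ, IsPrimitiveRoot ζ (2 ^ (n + 3)) →
    ∀ m : ℕ → ℤ, (∀ j : ℕ, ¬ 2 ∣ j → Xs (2 ^ (n + 3)) m ζ (3 * j) = Xs (2 ^ (n + 3)) m ζ j) →
    ∃ p q : ℤ, ∀ j : ℕ, ¬ 2 ∣ j → Xs (2 ^ (n + 3)) m ζ j = p + sg8 j * q * r2 := by
  induction n with
  | zero =>
    intro ζ hζ m h
    have h4 : ζ ^ 4 = -1 := by
      have := prim_half (a := 2) hζ
      exact this
    exact base3 ζ h4 m (h 1 (by norm_num))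
  | succ n ih =>
    intro ζ hζ m h
    have hζ' : IsPrimitiveRoot ζ (2 ^ ((n + 3) + 1)) := by
      rw [show n + 3 + 1 = n + 1 + 3 by ring]
      exact hζ
    rw [show n + 1 + 3 = (n + 3) + 1 by ring] at h ⊢
    obtain ⟨k, hk⟩ := hP (n + 3 + 1) (1 + 2 ^ (n + 3)) (Or.inl (by
      rw [pow_add, show (2 : ℕ) ^ 3 = 8 by norm_num]
      exact (Nat.modEq_iff_dvd' (by omega)).2 ⟨2 ^ n, by
        rw [Nat.add_sub_cancel_left]; ring⟩ |>.symm))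
    have hsh : ∀ j : ℕ, ¬ 2 ∣ j → Xs (2 ^ (n + 3 + 1)) m ζ (j + 2 ^ (n + 3)) =
        Xs (2 ^ (n + 3 + 1)) m ζ j := by
      intro j hj
      have h1 : 3 ^ k * j ≡ j + 2 ^ (n + 3) [MOD 2 ^ (n + 3 + 1)] := by
        refine (Nat.ModEq.mul_right j hk).trans ?_
        obtain ⟨i, hi⟩ : ∃ i, j = 2 * i + 1 := ⟨j / 2, by omega⟩
        have h2 : (1 + 2 ^ (n + 3)) * j = j + 2 ^ (n + 3) + 2 ^ (n + 3 + 1) * i := by
          rw [hi, pow_succ]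
          ring
        rw [h2]
        exact (Nat.ModEq.refl _).trans (by
          have := Nat.add_mul_mod_self_left (j + 2 ^ (n + 3)) (2 ^ (n + 3 + 1)) i
          exact this)
      rw [← xs_congr _ m ζ _ hζ'.pow_eq_one h1]
      exact xs_pow h k j hj
    have hred : ∀ j : ℕ, ¬ 2 ∣ j → Xs (2 ^ (n + 3 + 1)) m ζ j =
        Xs (2 ^ (n + 3)) (fun i => m (2 * i)) (ζ ^ 2) j :=
      fun j hj => xs_red hζ' m j (hsh j hj)
    have hζ2 : IsPrimitiveRoot (ζ ^ 2) (2 ^ (n + 3)) :=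
      hζ'.pow (by positivity) (by rw [pow_succ, mul_comm])
    obtain ⟨p, q, hpq⟩ := ih (ζ ^ 2) hζ2 (fun i => m (2 * i)) (fun j hj => by
      rw [← hred j hj, ← hred (3 * j) (by omega)]
      exact h j hj)
    exact ⟨p, q, fun j hj => (hred j hj).trans (hpq j hj)⟩

/-- ROW ZI2 -/
theorem zi2_ : P3mStmt → Zi2Stmt := by
  intro hP a ha ζ hζ m x hx h3
  have hX : ∀ j, x j = Xs (2 ^ a) m ζ j := hx
  have h3' : ∀ j : ℕ, ¬ 2 ∣ j → Xs (2 ^ a) m ζ (3 * j) = Xs (2 ^ a) m ζ j := by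
    intro j hj
    rw [← hX, ← hX]
    exact h3 j hj
  simp only [hX]
  obtain rfl | rfl | ⟨n, rfl⟩ : a = 1 ∨ a = 2 ∨ ∃ n, a = n + 3 := by
    rcases Nat.lt_or_ge a 3 with h | h
    · omega
    · exact Or.inr (Or.inr ⟨a - 3, by omega⟩)
  · have h1 : ζ = -1 := by
      have := prim_half (a := 0) hζ
      rwa [pow_zero, pow_one] at this
    refine ⟨m 0 - m 1, 0, fun j hj => ?_, fun _ => rfl⟩
    have h2 : ζ ^ j = -1 := by
      rw [h1]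
      exact Odd.neg_one_pow (Nat.odd_iff.2 (by omega))
    unfold Xs
    rw [show (2 : ℕ) ^ 1 = 2 by norm_num]
    simp only [Finset.sum_range_succ, Finset.sum_range_zero, pow_mul' ζ, h2]
    push_cast
    ring
  · have h1 : ζ ^ 2 = -1 := prim_half (a := 1) hζ
    have hodd : ∀ j : ℕ, ¬ 2 ∣ j → (ζ ^ j) ^ 2 = -1 := by
      intro j hj
      rw [← pow_mul, mul_comm, pow_mul, h1]
      exact Odd.neg_one_pow (Nat.odd_iff.2 (by omega))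
    have e : ∀ j : ℕ, ¬ 2 ∣ j → Xs (2 ^ 2) m ζ j = ((m 0 - m 2 : ℤ) : ℂ) +
        ((m 1 - m 3 : ℤ) : ℂ) * ζ ^ j := by
      intro j hj
      unfold Xs
      rw [show (2 : ℕ) ^ 2 = 4 by norm_num]
      simp only [Finset.sum_range_succ, Finset.sum_range_zero, pow_mul' ζ]
      push_cast
      linear_combination ((m 2 : ℂ) + m 3 * ζ ^ j) * hodd j hj
    have h4 := h3' 1 (by norm_num)
    rw [e _ (by norm_num), e _ (by norm_num)] at h4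
    have hζ0 : ζ ≠ 0 := hζ.ne_zero (by norm_num)
    have h5 : ((m 1 - m 3 : ℤ) : ℂ) * (2 * ζ) = 0 := by
      have h6 : ζ ^ (3 * 1) = - ζ := by
        rw [show 3 * 1 = 3 by norm_num]
        linear_combination ζ * h1
      rw [h6] at h4
      rw [pow_one] at h4
      linear_combination -h4
    have h7 : ((m 1 - m 3 : ℤ) : ℂ) = 0 := by
      rcases mul_eq_zero.1 h5 with h | h
      · exact h
      · exact absurd h (mul_ne_zero (by norm_num) hζ0)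
    refine ⟨m 0 - m 2, 0, fun j hj => ?_, fun _ => rfl⟩
    rw [e j hj, h7]
    push_cast
    ring
  · obtain ⟨p, q, hpq⟩ := xs_main hP n ζ hζ m h3'
    exact ⟨p, q, hpq, fun h => by omega⟩

end Pool.Agent.PP.TW.H53
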